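import Pool.Agent.W579.FD.StepB2

/-! From a balanced ball to a much smaller ambiguous ball with small energy: S_STEPB. -/

set_option autoImplicit false

open MeasureTheory Metric Set Filter
open scoped ENNReal NNReal Topology
open Pool.Agent.W785.FD

namespace Pool.Agent.W579.FD

section
universe u
variable {X : Type u} [MetricSpace X] [ProperSpace X] [MeasurableSpace X] [BorelSpace X]
  {μ : Measure X} {D : ℝ}

lemma meas_lint (hD : Dbl μ D) {f : X → ℝ≥0∞} (hf : Measurable f) (s : ℝ) :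
    Measurable (fun z => ∫⁻ y in ball z s, f y ∂μ) := by
  have := lfm hD
  have e : (fun z => ∫⁻ y in ball z s, f y ∂μ) =
      fun z => ∫⁻ y, ({q : X × X | dist q.2 q.1 < s}.indicator (fun q => f q.2)) (z, y) ∂μ := by
    funext z
    rw [← lintegral_indicator measurableSet_ball]
    refine lintegral_congr fun y => ?_
    simp only [indicator, mem_ball, mem_ofPred_eq]
  rw [e]
  refine Measurable.lintegral_prod_right' ?_
  refine (hf.comp measurable_snd).indicator ?_
  exact measurableSet_lt (measurable_snd.dist measurable_fst) measurable_const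

lemma meas_mu (hD : Dbl μ D) (s : ℝ) : Measurable (fun z => μ (ball z s)) := by
  have h := meas_lint hD (measurable_one (α := ℝ≥0∞) (β := X)) s
  simpa using h

lemma meas_lav (hD : Dbl μ D) {f : X → ℝ≥0∞} (hf : Measurable f) (s : ℝ) :
    Measurable (fun z => lav μ f z s) := (meas_lint hD hf s).div (meas_mu hD s)

end

theorem main {X : Type*} [MetricSpace X] [ProperSpace X] [MeasurableSpace X] [BorelSpace X]
    (μ : Measure X) (p C L D : ℝ) (hD : Dbl μ D) (h : PI μ p C L) (h1 : S_KER μ D)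
    (h2 : S_L1 μ D) (h3 : S_FA μ D) : S_STEPB μ p L := by
  have hp1 := h.one_lt
  have hC0 := h.nonneg
  have hL1 := h.one_le
  have hD1 := hD.one_le
  have hD0 : 0 < D := by linarith
  have hp0 : 0 < p := by linarith
  intro κ hκ hκ2
  set τ : ℝ := min (1 / (3 * D)) (κ / (16 * D ^ 4)) with hτ
  have hτ0 : 0 < τ := lt_min (by positivity) (by positivity)
  have hτ1 : τ ≤ 1 / (3 * D) := min_le_left _ _
  have hτ2 : D ^ 4 * τ ≤ κ / 16 := by
    have h4 : τ ≤ κ / (16 * D ^ 4) := min_le_right _ _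
    calc D ^ 4 * τ ≤ D ^ 4 * (κ / (16 * D ^ 4)) := by gcongr
      _ = κ / 16 := by field_simp
  refine ⟨τ, hτ0, ?_⟩
  intro ε Λ hε hΛ
  obtain ⟨M, hM⟩ : ∃ M : ℕ, L * (L + 3) ≤ 2 ^ M := by
    obtain ⟨M, hM⟩ := pow_unbounded_of_one_lt (L * (L + 3)) (one_lt_two : (1 : ℝ) < 2)
    exact ⟨M, hM.le⟩
  obtain ⟨m1, hm1⟩ : ∃ m : ℕ, 2 * Λ ≤ 2 ^ m := by
    obtain ⟨m, hm⟩ := pow_unbounded_of_one_lt (2 * Λ) (one_lt_two : (1 : ℝ) < 2)
    exact ⟨m, hm.le⟩
  set T : ℝ := 2 ^ p * D ^ (M + 1) / ε with hT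
  have hT0 : 0 < T := by positivity
  obtain ⟨j0, n, hj0, HA⟩ := lemA hD h h1 h2 hκ hτ0 hτ1 hτ2 hT0 (max 4 m1)
  set M2 : ℕ := M + (j0 + n) with hM2
  set K : ℝ := (D ^ M2 + D ^ M) * (C * (L + 2)) * (D ^ M) ^ (1 / p) + 1 with hK
  refine ⟨K, by positivity, ?_⟩
  intro V φ g hV hφ hφ0 hφ1 hug x r hr hA
  have hVV' : V =ᵐ[μ] toMeasurable μ V := hV.toMeasurable_ae_eq.symm
  have hA' := (amb_congr hVV' κ x r).1 hA
  obtain ⟨j, hj1, hj2, hj3⟩ := HA _ (measurableSet_toMeasurable μ V) x r hr hA'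
  set s : ℝ := 2 * (r / 2 ^ j) with hs
  set E : Set X := {z | Amb μ (toMeasurable μ V) τ z s} ∩ ball x (L * r) with hE
  have hs0 : 0 < s := by positivity
  have hB0 := (hD.pos x r hr).ne'
  have hBt := (hD.fin x r).ne
  have h2j : (16 : ℝ) ≤ 2 ^ j := by
    have : (2 : ℝ) ^ 4 ≤ 2 ^ j := pow_le_pow_right₀ (by norm_num)
      ((le_max_left 4 m1).trans (hj0.trans hj1))
    linarith
  have h2jΛ : 2 * Λ ≤ 2 ^ j := hm1.trans (pow_le_pow_right₀ (by norm_num)
      ((le_max_right 4 m1).trans (hj0.trans hj1)))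
  have hE0 : μ E ≠ 0 := by
    intro h0
    rw [h0, mul_zero] at hj3
    have h4 : ENNReal.ofReal T * μ (ball x r) = 0 := le_antisymm hj3 zero_le
    rw [mul_eq_zero] at h4
    rcases h4 with h4 | h4
    · rw [ENNReal.ofReal_eq_zero] at h4
      linarith
    · exact hB0 h4
  have hEt : μ E ≠ ∞ := by
    refine ne_top_of_le_ne_top (hD.fin x (L * r)).ne (measure_mono inter_subset_right)
  set f : X → ℝ≥0∞ := fun y => g y ^ p with hf
  have hfm : Measurable f := hug.1.pow_const p
  obtain ⟨z, hzE, hz⟩ := exists_le_setLAverage hE0 hEt (meas_lav hD hfm (Λ * s)).aemeasurable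
  rw [setLAverage_eq] at hz
  set lam : ℝ≥0∞ := lav μ f x (L * (L + 3) * r) with hlam
  have hΛs : Λ * s ≤ r := by
    rw [hs, show Λ * (2 * (r / 2 ^ j)) = 2 * Λ * r / 2 ^ j by ring, div_le_iff₀ (by positivity)]
    nlinarith
  have hLL : L + 3 ≤ L * (L + 3) := by nlinarith
  have hR0 : 0 < L * (L + 3) * r := by positivity
  have hbig : μ (ball x (L * (L + 3) * r)) ≤ ENNReal.ofReal (D ^ M) * μ (ball x r) := by
    refine comp_ball hD M hr ?_
    rw [dist_self, zero_add]
    gcongr
  have hnum : ∫⁻ a in E, lav μ f a (Λ * s) ∂μ ≤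
      ENNReal.ofReal (D ^ (M + 1)) * lam * μ (ball x r) := by
    calc ∫⁻ a in E, lav μ f a (Λ * s) ∂μ ≤ ∫⁻ a in ball x (L * r), lav μ f a (Λ * s) ∂μ :=
          lintegral_mono_set inter_subset_right
      _ ≤ ENNReal.ofReal D * ∫⁻ y in ball x (L * r + Λ * s), f y ∂μ :=
          h3 f hfm x (L * r) (Λ * s) (by positivity)
      _ ≤ ENNReal.ofReal D * ∫⁻ y in ball x (L * (L + 3) * r), f y ∂μ := by
          refine mul_le_mul' le_rfl (lintegral_mono_set (ball_subset_ball ?_))
          nlinarith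
      _ = ENNReal.ofReal D * (lam * μ (ball x (L * (L + 3) * r))) := by
          rw [hlam]
          unfold lav
          rw [ENNReal.div_mul_cancel (hD.pos x _ hR0).ne' (hD.fin x _).ne]
      _ ≤ ENNReal.ofReal D * (lam * (ENNReal.ofReal (D ^ M) * μ (ball x r))) := by gcongr
      _ = _ := by
          rw [show D ^ (M + 1) = D * D ^ M by ring, ENNReal.ofReal_mul hD0.le]
          ring
  have hratio : μ (ball x r) / μ E ≤ ENNReal.ofReal ((2 ^ j) ^ p / T) := by
    rw [ENNReal.div_le_iff hE0 hEt]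
    have h5 : ENNReal.ofReal (1 / T) * (ENNReal.ofReal T * μ (ball x r)) ≤
        ENNReal.ofReal (1 / T) * (ENNReal.ofReal ((2 ^ j) ^ p) * μ E) := by gcongr
    rw [← mul_assoc, ← mul_assoc, ← ENNReal.ofReal_mul (by positivity),
      ← ENNReal.ofReal_mul (by positivity), one_div_mul_cancel hT0.ne', ENNReal.ofReal_one,
      one_mul] at h5
    refine h5.trans (le_of_eq ?_)
    congr 2
    ring
  have hlavz : lav μ f z (Λ * s) ≤ ENNReal.ofReal (D ^ (M + 1) * ((2 ^ j) ^ p / T)) * lam := by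
    refine hz.trans ?_
    calc (∫⁻ a in E, lav μ f a (Λ * s) ∂μ) / μ E
        ≤ (ENNReal.ofReal (D ^ (M + 1)) * lam * μ (ball x r)) / μ E := by gcongr
      _ = ENNReal.ofReal (D ^ (M + 1)) * lam * (μ (ball x r) / μ E) := by
          rw [mul_div_assoc]
      _ ≤ ENNReal.ofReal (D ^ (M + 1)) * lam * ENNReal.ofReal ((2 ^ j) ^ p / T) := by gcongr
      _ = _ := by
          rw [ENNReal.ofReal_mul (p := D ^ (M + 1)) (by positivity)]
          ring
  have hzx : dist z x < L * r := by
    have := hzE.2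
    rwa [mem_ball] at this
  refine ⟨z, s, hs0, ?_, ?_, ?_, ?_, ?_⟩
  · rw [hs, show 2 * (r / 2 ^ j) = 2 * r / 2 ^ j by ring, div_le_iff₀ (by positivity)]
    nlinarith
  · nlinarith
  · exact (amb_congr hVV' τ z s).2 hzE.1
  · unfold ee
    calc ENNReal.ofReal (s ^ p) * lav μ (fun y => g y ^ p) z (Λ * s)
        ≤ ENNReal.ofReal (s ^ p) *
          (ENNReal.ofReal (D ^ (M + 1) * ((2 ^ j) ^ p / T)) * lam) := by gcongr
      _ = ENNReal.ofReal (s ^ p * (D ^ (M + 1) * ((2 ^ j) ^ p / T))) * lam := by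
          rw [← mul_assoc, ← ENNReal.ofReal_mul (by positivity)]
      _ = ENNReal.ofReal ε * (ENNReal.ofReal (r ^ p) * lam) := by
          have h66 : ENNReal.ofReal ε * (ENNReal.ofReal (r ^ p) * lam) =
              ENNReal.ofReal (ε * r ^ p) * lam := by
            rw [ENNReal.ofReal_mul hε.le, mul_assoc]
          rw [h66]
          congr 2
          rw [hs, hT, Real.mul_rpow (by norm_num) (by positivity),
            Real.div_rpow hr.le (by positivity)]
          have h6 : ((2 : ℝ) ^ j) ^ p ≠ 0 := by positivity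
          have h7 : (2 : ℝ) ^ p ≠ 0 := by positivity
          field_simp
  · have hLI : LI μ φ := LI_of_bdd hD hφ hφ0 hφ1
    set R : ℝ := (L + 2) * r with hR
    have hRpos : 0 < R := by positivity
    have hosc := h.poin φ g hLI hug x R hRpos
    have e1 : ENNReal.ofReal |mean μ φ z s - mean μ φ x R| ≤
        ENNReal.ofReal (D ^ M2) * osc μ φ x R := by
      refine mean_diff hD hLI hs0 hRpos ?_ ?_
      · refine ball_subset_ball' ?_
        have h8 : s ≤ r := by
          rw [hs, show 2 * (r / 2 ^ j) = 2 * r / 2 ^ j by ring, div_le_iff₀ (by positivity)]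
          nlinarith
        rw [hR]
        nlinarith
      · refine comp_ball hD M2 hs0 ?_
        have h9 : (2 : ℝ) ^ j ≤ 2 ^ (j0 + n) := pow_le_pow_right₀ (by norm_num) hj2.le
        have h10 : r ≤ 2 ^ (j0 + n) * (r / 2 ^ j) := by
          rw [mul_div_assoc', le_div_iff₀ (by positivity)]
          nlinarith
        have h11 : (2 : ℝ) ^ M2 * s = 2 ^ M * 2 * (2 ^ (j0 + n) * (r / 2 ^ j)) := by
          rw [hM2, hs, pow_add]
          ring
        rw [h11, dist_comm]
        have h12 : L + 1 ≤ (2 : ℝ) ^ M := by linarith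
        have h13 : (L + 1) * 2 * r ≤ 2 ^ M * 2 * (2 ^ (j0 + n) * (r / 2 ^ j)) := by
          gcongr
        rw [hR]
        nlinarith
    have e2 : ENNReal.ofReal |mean μ φ x r - mean μ φ x R| ≤
        ENNReal.ofReal (D ^ M) * osc μ φ x R := by
      refine mean_diff hD hLI hr hRpos ?_ ?_
      · refine ball_subset_ball ?_
        rw [hR]
        nlinarith
      · refine comp_ball hD M hr ?_
        rw [dist_self, zero_add, hR]
        gcongr
        linarith
    have e3 : lav μ f x (L * R) ≤ ENNReal.ofReal (D ^ M) * lam := by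
      refine lav_le hD (by positivity) hR0 (ball_subset_ball ?_) ?_
      · rw [hR]
        nlinarith [mul_pos (by linarith : (0 : ℝ) < L) hr]
      · refine hbig.trans ?_
        refine mul_le_mul' le_rfl (measure_mono (ball_subset_ball ?_))
        rw [hR]
        nlinarith [mul_pos (by linarith : (0 : ℝ) < L) hr]
    have e4 : (ee μ p g (L * (L + 3)) x r) ^ (1 / p) = ENNReal.ofReal r * lam ^ (1 / p) := by
      unfold ee
      rw [ENNReal.mul_rpow_of_nonneg _ _ (by positivity),
        ENNReal.ofReal_rpow_of_nonneg (by positivity) (by positivity), ← Real.rpow_mul hr.le,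
        mul_one_div_cancel hp0.ne', Real.rpow_one]
    have e5 : ENNReal.ofReal |mean μ φ z s - mean μ φ x r| ≤
        ENNReal.ofReal |mean μ φ z s - mean μ φ x R| +
          ENNReal.ofReal |mean μ φ x r - mean μ φ x R| := by
      rw [← ENNReal.ofReal_add (abs_nonneg _) (abs_nonneg _)]
      refine ENNReal.ofReal_le_ofReal ?_
      rw [abs_sub_comm (mean μ φ x r)]
      exact abs_sub_le _ _ _
    rw [e4]
    calc ENNReal.ofReal |mean μ φ z s - mean μ φ x r|
        ≤ ENNReal.ofReal (D ^ M2) * osc μ φ x R + ENNReal.ofReal (D ^ M) * osc μ φ x R :=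
          e5.trans (add_le_add e1 e2)
      _ = ENNReal.ofReal (D ^ M2 + D ^ M) * osc μ φ x R := by
          rw [ENNReal.ofReal_add (by positivity) (by positivity), add_mul]
      _ ≤ ENNReal.ofReal (D ^ M2 + D ^ M) *
          (ENNReal.ofReal (C * R) * (ENNReal.ofReal (D ^ M) * lam) ^ (1 / p)) := by
          refine mul_le_mul' le_rfl (hosc.trans (mul_le_mul' le_rfl ?_))
          exact ENNReal.rpow_le_rpow e3 (by positivity)
      _ = ENNReal.ofReal ((D ^ M2 + D ^ M) * (C * (L + 2)) * (D ^ M) ^ (1 / p)) *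
          (ENNReal.ofReal r * lam ^ (1 / p)) := by
          rw [ENNReal.mul_rpow_of_nonneg _ _ (by positivity),
            ENNReal.ofReal_rpow_of_nonneg (by positivity) (by positivity), hR,
            ENNReal.ofReal_mul (p := (D ^ M2 + D ^ M) * (C * (L + 2))) (by positivity),
            ENNReal.ofReal_mul (p := D ^ M2 + D ^ M) (by positivity),
            show C * ((L + 2) * r) = C * (L + 2) * r by ring,
            ENNReal.ofReal_mul (p := C * (L + 2)) (by positivity)]
          ring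
      _ ≤ ENNReal.ofReal K * (ENNReal.ofReal r * lam ^ (1 / p)) := by
          refine mul_le_mul' (ENNReal.ofReal_le_ofReal ?_) le_rfl
          rw [hK]
          linarith

end Pool.Agent.W579.FD
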