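import Pool.Agent.W785.FD.Stms

/-! Basic facts and lower bound of the measure of the ambiguous set (for S_STEPB). -/

set_option autoImplicit false

open MeasureTheory Metric Set Filter
open scoped ENNReal NNReal Topology
open Pool.Agent.W785.FD

namespace Pool.Agent.W579.FD

universe u
variable {X : Type u} [MetricSpace X] [MeasurableSpace X]

section base
variable [BorelSpace X] {μ : Measure X} {D : ℝ}

omit [BorelSpace X] in
lemma lfm (hD : Dbl μ D) : IsLocallyFiniteMeasure μ :=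
  ⟨fun x => ⟨ball x 1, ball_mem_nhds x one_pos, hD.fin x 1⟩⟩

lemma iter (hD : Dbl μ D) (m : ℕ) (x : X) {r : ℝ} (hr : 0 < r) :
    μ (ball x (2 ^ m * r)) ≤ ENNReal.ofReal (D ^ m) * μ (ball x r) := by
  induction m with
  | zero => simp
  | succ m ih =>
    have h1 := hD.dbl x (2 ^ m * r) (by positivity)
    have hD0 : 0 ≤ D := le_trans zero_le_one hD.one_le
    calc μ (ball x (2 ^ (m + 1) * r)) = μ (ball x (2 * (2 ^ m * r))) := by
          congr 2
          ring
      _ ≤ ENNReal.ofReal D * μ (ball x (2 ^ m * r)) := h1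
      _ ≤ ENNReal.ofReal D * (ENNReal.ofReal (D ^ m) * μ (ball x r)) := by gcongr
      _ = ENNReal.ofReal (D ^ (m + 1)) * μ (ball x r) := by
          rw [← mul_assoc, ← ENNReal.ofReal_mul hD0]
          congr 2
          ring

lemma comp_ball (hD : Dbl μ D) (m : ℕ) {x z : X} {r s : ℝ} (hs : 0 < s)
    (h : dist x z + r ≤ 2 ^ m * s) : μ (ball x r) ≤ ENNReal.ofReal (D ^ m) * μ (ball z s) := by
  refine (measure_mono ?_).trans (iter hD m z hs)
  intro y hy
  rw [mem_ball] at hy ⊢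
  have := dist_triangle y x z
  linarith

lemma lav_le (hD : Dbl μ D) {f : X → ℝ≥0∞} {x z : X} {r s : ℝ} (hr : 0 < r) (hs : 0 < s)
    (hsub : ball x r ⊆ ball z s) {a : ℝ≥0∞} (hμ : μ (ball z s) ≤ a * μ (ball x r)) :
    lav μ f x r ≤ a * lav μ f z s := by
  have h1 := (hD.pos x r hr).ne'
  have h2 := (hD.fin x r).ne
  have h3 := (hD.pos z s hs).ne'
  have h4 := (hD.fin z s).ne
  unfold lav
  rw [ENNReal.div_le_iff h1 h2]
  calc ∫⁻ y in ball x r, f y ∂μ ≤ ∫⁻ y in ball z s, f y ∂μ := lintegral_mono_set hsub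
    _ = (∫⁻ y in ball z s, f y ∂μ) / μ (ball z s) * μ (ball z s) :=
        (ENNReal.div_mul_cancel h3 h4).symm
    _ ≤ (∫⁻ y in ball z s, f y ∂μ) / μ (ball z s) * (a * μ (ball x r)) := by gcongr
    _ = a * ((∫⁻ y in ball z s, f y ∂μ) / μ (ball z s)) * μ (ball x r) := by ring

lemma mean_sub_le (hD : Dbl μ D) {u : X → ℝ} (hu : LI μ u) (x : X) {r : ℝ} (hr : 0 < r) (c : ℝ) :
    ENNReal.ofReal |mean μ u x r - c| ≤ lav μ (fun y => ENNReal.ofReal |u y - c|) x r := by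
  have h1 := (hD.pos x r hr).ne'
  have h2 := (hD.fin x r).ne
  have hB : 0 < μ.real (ball x r) := ENNReal.toReal_pos h1 h2
  have hint : IntegrableOn (fun y => u y - c) (ball x r) μ :=
    (hu x r).sub (integrableOn_const h2)
  have e1 : mean μ u x r - c = (μ.real (ball x r))⁻¹ * ∫ y in ball x r, (u y - c) ∂μ := by
    unfold mean
    rw [setAverage_eq, integral_sub (hu x r) (integrableOn_const h2), setIntegral_const,
      smul_eq_mul, smul_eq_mul]
    field_simp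
  have e2 : |mean μ u x r - c| ≤ (μ.real (ball x r))⁻¹ * ∫ y in ball x r, |u y - c| ∂μ := by
    rw [e1, abs_mul, abs_of_pos (inv_pos.2 hB)]
    gcongr
    exact abs_integral_le_integral_abs
  refine (ENNReal.ofReal_le_ofReal e2).trans (le_of_eq ?_)
  unfold lav
  rw [ENNReal.ofReal_mul (by positivity), ENNReal.ofReal_inv_of_pos hB,
    ofReal_integral_eq_lintegral_ofReal hint.abs (ae_of_all _ fun _ => abs_nonneg _),
    ENNReal.div_eq_inv_mul]
  congr 2
  exact ENNReal.ofReal_toReal h2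

lemma mean_diff (hD : Dbl μ D) {u : X → ℝ} (hu : LI μ u) {x z : X} {r s : ℝ} (hr : 0 < r)
    (hs : 0 < s) (hsub : ball x r ⊆ ball z s) {a : ℝ≥0∞} (hμ : μ (ball z s) ≤ a * μ (ball x r)) :
    ENNReal.ofReal |mean μ u x r - mean μ u z s| ≤ a * osc μ u z s :=
  (mean_sub_le hD hu x hr _).trans (lav_le hD hr hs hsub hμ)

lemma LI_of_bdd (hD : Dbl μ D) {u : X → ℝ} (hu : Measurable u) (h0 : ∀ y, 0 ≤ u y)
    (h1 : ∀ y, u y ≤ 1) : LI μ u := by
  intro x r
  have h2 := (hD.fin x r).ne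
  refine Integrable.mono' (g := fun _ => (1 : ℝ)) (integrableOn_const h2)
    hu.aestronglyMeasurable (ae_of_all _ fun y => ?_)
  rw [Real.norm_eq_abs, abs_of_nonneg (h0 y)]
  exact h1 y

lemma dens_congr {V W : Set X} (h : V =ᵐ[μ] W) (x : X) (r : ℝ) : dens μ V x r = dens μ W x r := by
  unfold dens
  congr 1
  exact measure_congr (h.inter (ae_eq_refl _))

lemma amb_congr {V W : Set X} (h : V =ᵐ[μ] W) (τ : ℝ) (x : X) (r : ℝ) :
    Amb μ V τ x r ↔ Amb μ W τ x r := by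
  unfold Amb
  rw [dens_congr h, dens_congr h.compl]

/-- the `L^1` estimate for one kernel average -/
lemma l1est {V : Set X} (hV : MeasurableSet V) (h2 : S_L1 μ D) {τ ρ : ℝ} (hτ0 : 0 ≤ τ)
    (hτ : τ ≤ 1 / (3 * D)) {x : X} {r : ℝ} (hρ : 0 < ρ) (hρr : ρ ≤ r) {k : X → ℝ}
    (k0 : ∀ y, 0 ≤ k y) (k1 : ∀ y, k y ≤ 1)
    (ka : ∀ y, dens μ V y (2 * ρ) < ENNReal.ofReal (1 / (3 * D)) → k y = 0)
    (kb : ∀ y, dens μ Vᶜ y (2 * ρ) < ENNReal.ofReal (1 / (3 * D)) → k y = 1) :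
    ∫⁻ y in ball x r, ENNReal.ofReal |k y - V.indicator (fun _ => (1 : ℝ)) y| ∂μ ≤
      μ ({z | Amb μ V τ z (2 * ρ)} ∩ ball x r) + ENNReal.ofReal (2 * (D ^ 4 * τ)) * μ (ball x r) := by
  set S1 := {z | Amb μ V τ z (2 * ρ)} ∩ ball x r with hS1
  set S2 := {w | w ∈ V ∧ w ∈ ball x r ∧ dens μ V w (2 * ρ) < ENNReal.ofReal τ} with hS2
  set S3 := {w | w ∈ Vᶜ ∧ w ∈ ball x r ∧ dens μ Vᶜ w (2 * ρ) < ENNReal.ofReal τ} with hS3
  have e2 := h2 V hV.nullMeasurableSet τ ρ x r hτ0 hρ hρr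
  have e3 := h2 Vᶜ hV.compl.nullMeasurableSet τ ρ x r hτ0 hρ hρr
  have hpt : ∀ y ∈ ball x r, ENNReal.ofReal |k y - V.indicator (fun _ => (1 : ℝ)) y| ≤
      (S1 ∪ S2 ∪ S3).indicator (1 : X → ℝ≥0∞) y := by
    intro y hy
    by_cases hyS : y ∈ S1 ∪ S2 ∪ S3
    · rw [indicator_of_mem hyS, Pi.one_apply]
      rw [← ENNReal.ofReal_one]
      refine ENNReal.ofReal_le_ofReal ?_
      have h0 := k0 y
      have h1 := k1 y
      by_cases hyV : y ∈ V
      · rw [indicator_of_mem hyV, abs_le]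
        constructor <;> linarith
      · rw [indicator_of_notMem hyV, abs_le]
        constructor <;> linarith
    · have hn1 : y ∉ S1 := fun h => hyS (Or.inl (Or.inl h))
      have hn2 : y ∉ S2 := fun h => hyS (Or.inl (Or.inr h))
      have hn3 : y ∉ S3 := fun h => hyS (Or.inr h)
      have hna : ¬ Amb μ V τ y (2 * ρ) := fun h => hn1 ⟨h, hy⟩
      have hle : ENNReal.ofReal τ ≤ ENNReal.ofReal (1 / (3 * D)) := ENNReal.ofReal_le_ofReal hτ
      rw [indicator_of_notMem hyS]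
      by_cases hd : ENNReal.ofReal τ ≤ dens μ V y (2 * ρ)
      · have hd2 : dens μ Vᶜ y (2 * ρ) < ENNReal.ofReal τ := by
          by_contra hcon
          exact hna ⟨hd, not_lt.1 hcon⟩
        have hk := kb y (lt_of_lt_of_le hd2 hle)
        have hyV : y ∈ V := by
          by_contra hyV
          exact hn3 ⟨hyV, hy, hd2⟩
        rw [indicator_of_mem hyV, hk]
        simp
      · have hd2 := not_le.1 hd
        have hk := ka y (lt_of_lt_of_le hd2 hle)
        have hyV : y ∉ V := fun hyV => hn2 ⟨hyV, hy, hd2⟩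
        rw [indicator_of_notMem hyV, hk]
        simp
  calc ∫⁻ y in ball x r, ENNReal.ofReal |k y - V.indicator (fun _ => (1 : ℝ)) y| ∂μ
      ≤ ∫⁻ y in ball x r, (S1 ∪ S2 ∪ S3).indicator (1 : X → ℝ≥0∞) y ∂μ :=
        setLIntegral_mono' measurableSet_ball hpt
    _ ≤ ∫⁻ y, (S1 ∪ S2 ∪ S3).indicator (1 : X → ℝ≥0∞) y ∂μ := setLIntegral_le_lintegral _ _
    _ ≤ μ (S1 ∪ S2 ∪ S3) := lintegral_indicator_one_le _
    _ ≤ μ (S1 ∪ S2) + μ S3 := measure_union_le _ _
    _ ≤ μ S1 + μ S2 + μ S3 := by gcongr; exact measure_union_le _ _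
    _ ≤ μ S1 + ENNReal.ofReal (D ^ 4 * τ) * μ (ball x r) +
        ENNReal.ofReal (D ^ 4 * τ) * μ (ball x r) := by gcongr
    _ = _ := by
        have h3 : 0 ≤ D ^ 4 * τ := by positivity
        rw [ENNReal.ofReal_mul (p := 2) (by norm_num)]
        rw [show ENNReal.ofReal 2 = 2 by norm_num]
        ring

/-- lower bound of the oscillation -/
lemma oscLower (hD : Dbl μ D) {V : Set X} (hV : MeasurableSet V) {κ : ℝ} (hκ : 0 < κ) {x : X}
    {r : ℝ} (hr : 0 < r) (hA : Amb μ V κ x r) {H : X → ℝ} (hH : Measurable H)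
    (hδ : ∫⁻ y in ball x r, ENNReal.ofReal |H y - V.indicator (fun _ => (1 : ℝ)) y| ∂μ ≤
      ENNReal.ofReal (κ / 4) * μ (ball x r)) :
    ENNReal.ofReal (κ / 4) ≤ osc μ H x r := by
  have h1 := (hD.pos x r hr).ne'
  have h2 := (hD.fin x r).ne
  set m := mean μ H x r with hm
  have main : ∀ W : Set X, MeasurableSet W → ENNReal.ofReal κ ≤ dens μ W x r →
      (∀ y ∈ W, 1 / 2 ≤ |H y - m| + |H y - V.indicator (fun _ => (1 : ℝ)) y|) →
      ENNReal.ofReal (κ / 4) ≤ osc μ H x r := by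
    intro W hW hW1 hW2
    have e1 : ENNReal.ofReal κ * μ (ball x r) ≤ μ (W ∩ ball x r) := by
      unfold dens at hW1
      exact (ENNReal.le_div_iff_mul_le (Or.inl h1) (Or.inl h2)).1 hW1
    have hma : Measurable (fun y => ENNReal.ofReal |H y - m|) := by fun_prop
    have e2 : ENNReal.ofReal (1 / 2) * μ (W ∩ ball x r) ≤
        (∫⁻ y in ball x r, ENNReal.ofReal |H y - m| ∂μ) +
          ∫⁻ y in ball x r, ENNReal.ofReal |H y - V.indicator (fun _ => (1 : ℝ)) y| ∂μ := by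
      rw [← lintegral_add_left hma]
      calc ENNReal.ofReal (1 / 2) * μ (W ∩ ball x r)
          = ∫⁻ _ in W ∩ ball x r, ENNReal.ofReal (1 / 2) ∂μ := by
            rw [setLIntegral_const]
        _ ≤ ∫⁻ y in W ∩ ball x r, (ENNReal.ofReal |H y - m| +
              ENNReal.ofReal |H y - V.indicator (fun _ => (1 : ℝ)) y|) ∂μ := by
            refine setLIntegral_mono' (hW.inter measurableSet_ball) ?_
            intro y hy
            rw [← ENNReal.ofReal_add (abs_nonneg _) (abs_nonneg _)]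
            exact ENNReal.ofReal_le_ofReal (hW2 y hy.1)
        _ ≤ _ := lintegral_mono_set inter_subset_right
    have e3 : (∫⁻ y in ball x r, ENNReal.ofReal |H y - m| ∂μ) = osc μ H x r * μ (ball x r) := by
      unfold osc lav
      rw [ENNReal.div_mul_cancel h1 h2]
    have e4 : ENNReal.ofReal (κ / 2) * μ (ball x r) ≤
        (osc μ H x r + ENNReal.ofReal (κ / 4)) * μ (ball x r) := by
      calc ENNReal.ofReal (κ / 2) * μ (ball x r)
          = ENNReal.ofReal (1 / 2) * (ENNReal.ofReal κ * μ (ball x r)) := by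
            rw [← mul_assoc, ← ENNReal.ofReal_mul (by norm_num)]
            congr 2
            ring
        _ ≤ ENNReal.ofReal (1 / 2) * μ (W ∩ ball x r) := by gcongr
        _ ≤ _ := e2
        _ ≤ osc μ H x r * μ (ball x r) + ENNReal.ofReal (κ / 4) * μ (ball x r) := by
            rw [e3]
            gcongr
        _ = _ := by ring
    have e5 : ENNReal.ofReal (κ / 2) ≤ osc μ H x r + ENNReal.ofReal (κ / 4) :=
      (ENNReal.mul_le_mul_iff_left h1 h2).1 e4
    have e6 : ENNReal.ofReal (κ / 4) + ENNReal.ofReal (κ / 4) ≤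
        osc μ H x r + ENNReal.ofReal (κ / 4) := by
      rw [← ENNReal.ofReal_add (by positivity) (by positivity)]
      rw [show κ / 4 + κ / 4 = κ / 2 by ring]
      exact e5
    exact (ENNReal.add_le_add_iff_right ENNReal.ofReal_ne_top).1 e6
  by_cases hm2 : 1 / 2 ≤ m
  · refine main Vᶜ hV.compl hA.2 ?_
    intro y hy
    rw [indicator_of_notMem hy, sub_zero]
    have h3 := abs_le.1 (le_refl |H y - m|)
    have h4 := abs_le.1 (le_refl |H y|)
    linarith [h3.1, h4.2]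
  · refine main V hV hA.1 ?_
    intro y hy
    rw [indicator_of_mem hy]
    have h3 := abs_le.1 (le_refl |H y - m|)
    have h4 := abs_le.1 (le_refl |H y - 1|)
    have h5 := not_le.1 hm2
    linarith [h3.2, h4.1]

end base

/-- distinct powers of two -/
lemma geom (p : ℝ) (hp : 0 ≤ p) (a : ℕ → ℝ≥0∞) (ha : ∀ j, a j = 0 ∨ a j = 1) (n : ℕ) :
    (∑ j ∈ Finset.range n, 2 ^ j * a j) ≤ 2 ^ n ∧
    (∑ j ∈ Finset.range n, (2 : ℝ≥0∞) ^ j * a j) ^ p ≤
      2 ^ p * ∑ j ∈ Finset.range n, ((2 : ℝ≥0∞) ^ j) ^ p * a j ∨ p = 0 := by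
  by_cases hp0 : p = 0
  · exact Or.inr hp0
  left
  have hp' : 0 < p := lt_of_le_of_ne hp (Ne.symm hp0)
  induction n with
  | zero => simp [hp']
  | succ n ih =>
    obtain ⟨ih1, ih2⟩ := ih
    rw [Finset.sum_range_succ, Finset.sum_range_succ]
    rcases ha n with h | h
    · rw [h, mul_zero, add_zero, mul_zero, add_zero]
      refine ⟨ih1.trans ?_, ih2⟩
      gcongr
      · norm_num
      · omega
    · rw [h, mul_one, mul_one]
      have h1 : ∑ j ∈ Finset.range n, (2 : ℝ≥0∞) ^ j * a j + 2 ^ n ≤ 2 ^ (n + 1) := by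
        calc ∑ j ∈ Finset.range n, (2 : ℝ≥0∞) ^ j * a j + 2 ^ n ≤ 2 ^ n + 2 ^ n := by gcongr
          _ = 2 ^ (n + 1) := by ring
      refine ⟨h1, ?_⟩
      calc (∑ j ∈ Finset.range n, (2 : ℝ≥0∞) ^ j * a j + 2 ^ n) ^ p ≤ ((2 : ℝ≥0∞) ^ (n + 1)) ^ p :=
            ENNReal.rpow_le_rpow h1 hp
        _ = 2 ^ p * ((2 : ℝ≥0∞) ^ n) ^ p := by
            rw [pow_succ, ENNReal.mul_rpow_of_nonneg _ _ hp, mul_comm]
        _ ≤ 2 ^ p * (∑ j ∈ Finset.range n, ((2 : ℝ≥0∞) ^ j) ^ p * a j + (2 ^ n) ^ p) := by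
            gcongr
            exact le_add_self

end Pool.Agent.W579.FD
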