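import Pool.Agent.W579.FD.StepB1

/-! The ambiguous set at some smaller scale is large (for S_STEPB). -/

set_option autoImplicit false

open MeasureTheory Metric Set Filter
open scoped ENNReal NNReal Topology
open Pool.Agent.W785.FD

namespace Pool.Agent.W579.FD

universe u
variable {X : Type u} [MetricSpace X] [MeasurableSpace X] [BorelSpace X] {μ : Measure X} {D : ℝ}

/-- upper bound for the oscillation of an average of kernel averages -/
lemma oscUpper (hD : Dbl μ D) {p C L : ℝ} (hPI : PI μ p C L) {x : X} {r : ℝ} (hr : 0 < r)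
    {n j0 : ℕ} (hn : 0 < n) (k : ℕ → X → ℝ) (kc : ∀ j, Continuous (k j)) (k0 : ∀ j y, 0 ≤ k j y)
    (k1 : ∀ j y, k j y ≤ 1)
    (kug : ∀ j, UG (k j) ({y | k j y ≠ 0 ∧ k j y ≠ 1}.indicator
      (fun _ => ENNReal.ofReal (6 * D ^ 2 / (r / 2 ^ (j0 + j))))))
    {T : ℝ} (hT : 0 < T)
    (hsm : ∀ j < n, ENNReal.ofReal ((2 ^ (j0 + j)) ^ p) *
      μ ({y | k j y ≠ 0 ∧ k j y ≠ 1} ∩ ball x (L * r)) ≤ ENNReal.ofReal T * μ (ball x r)) :
    osc μ (fun y => (∑ j ∈ Finset.range n, k j y) / n) x r ≤
      ENNReal.ofReal (12 * C * D ^ 2 * ((n * T) ^ (1 / p)) / n) := by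
  have hp1 := hPI.one_lt
  have hp0 : 0 < p := by linarith
  have hL1 := hPI.one_le
  have hD1 := hD.one_le
  have hnR : (0 : ℝ) < n := by exact_mod_cast hn
  have hD0 : 0 < D := by linarith
  set Dj : ℕ → Set X := fun j => {y | k j y ≠ 0 ∧ k j y ≠ 1} with hDj
  have hDjm : ∀ j, MeasurableSet (Dj j) := by
    intro j
    have h1 : MeasurableSet {y | k j y ≠ 0} :=
      (measurableSet_eq_fun (kc j).measurable measurable_const).compl
    have h2 : MeasurableSet {y | k j y ≠ 1} :=
      (measurableSet_eq_fun (kc j).measurable measurable_const).compl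
    exact h1.inter h2
  set a : ℕ → X → ℝ≥0∞ := fun j => (Dj j).indicator 1 with ha
  have ham : ∀ j, Measurable (a j) := fun j => measurable_one.indicator (hDjm j)
  have ha01 : ∀ j y, a j y = 0 ∨ a j y = 1 := by
    intro j y
    by_cases hy : y ∈ Dj j
    · right; simp [ha, hy]
    · left; simp [ha, hy]
  set b : ℝ≥0∞ := ENNReal.ofReal (6 * D ^ 2 * 2 ^ j0 / (n * r)) with hb
  set gH : X → ℝ≥0∞ := fun y => b * ∑ j ∈ Finset.range n, 2 ^ j * a j y with hgH
  have hgHm : Measurable gH := by
    refine Measurable.const_mul ?_ _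
    exact Finset.measurable_fun_sum _ fun j _ => (ham j).const_mul _
  have hgj : ∀ j y, ENNReal.ofReal (1 / n) * (Dj j).indicator
      (fun _ => ENNReal.ofReal (6 * D ^ 2 / (r / 2 ^ (j0 + j)))) y = b * (2 ^ j * a j y) := by
    intro j y
    by_cases hy : y ∈ Dj j
    · rw [indicator_of_mem hy]
      have : a j y = 1 := by simp [ha, hy]
      rw [this, mul_one, hb, ← ENNReal.ofReal_mul (by positivity)]
      have h2 : (2 : ℝ≥0∞) ^ j = ENNReal.ofReal (2 ^ j) := by
        rw [ENNReal.ofReal_pow (by norm_num)]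
        norm_num
      rw [h2, ← ENNReal.ofReal_mul (by positivity)]
      congr 1
      rw [pow_add]
      field_simp
    · rw [indicator_of_notMem hy]
      have : a j y = 0 := by simp [ha, hy]
      rw [this, mul_zero, mul_zero, mul_zero]
  set H : X → ℝ := fun y => (∑ j ∈ Finset.range n, k j y) / n with hH
  have hUG : UG H gH := by
    refine ⟨hgHm, fun c => ?_⟩
    unfold CrvIneq
    have e1 : |H (c.γ 0) - H (c.γ c.l)| ≤
        ∑ j ∈ Finset.range n, (1 / n) * |k j (c.γ 0) - k j (c.γ c.l)| := by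
      have e2 : H (c.γ 0) - H (c.γ c.l) =
          ∑ j ∈ Finset.range n, (1 / n) * (k j (c.γ 0) - k j (c.γ c.l)) := by
        rw [← Finset.mul_sum, Finset.sum_sub_distrib]
        simp only [hH]
        ring
      rw [e2]
      refine (Finset.abs_sum_le_sum_abs _ _).trans (le_of_eq ?_)
      refine Finset.sum_congr rfl fun j _ => ?_
      rw [abs_mul, abs_of_pos (by positivity)]
    have hγm : Measurable c.γ := c.lip.continuous.measurable
    calc ENNReal.ofReal |H (c.γ 0) - H (c.γ c.l)|
        ≤ ENNReal.ofReal (∑ j ∈ Finset.range n, (1 / n) * |k j (c.γ 0) - k j (c.γ c.l)|) :=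
          ENNReal.ofReal_le_ofReal e1
      _ = ∑ j ∈ Finset.range n, ENNReal.ofReal (1 / n) *
            ENNReal.ofReal |k j (c.γ 0) - k j (c.γ c.l)| := by
          rw [ENNReal.ofReal_sum_of_nonneg (fun j _ => by positivity)]
          refine Finset.sum_congr rfl fun j _ => ?_
          rw [ENNReal.ofReal_mul (by positivity)]
      _ ≤ ∑ j ∈ Finset.range n, ENNReal.ofReal (1 / n) *
            ∫⁻ t in Icc 0 c.l, (Dj j).indicator
              (fun _ => ENNReal.ofReal (6 * D ^ 2 / (r / 2 ^ (j0 + j)))) (c.γ t) := by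
          gcongr with j hj
          exact (kug j).2 c
      _ = ∑ j ∈ Finset.range n, ∫⁻ t in Icc 0 c.l, b * (2 ^ j * a j (c.γ t)) := by
          refine Finset.sum_congr rfl fun j _ => ?_
          rw [← lintegral_const_mul' _ _ ENNReal.ofReal_ne_top]
          refine lintegral_congr fun t => ?_
          exact hgj j (c.γ t)
      _ = ∫⁻ t in Icc 0 c.l, ∑ j ∈ Finset.range n, b * (2 ^ j * a j (c.γ t)) := by
          rw [lintegral_finsetSum _ fun j _ => ?_]
          exact (((ham j).comp hγm).const_mul _).const_mul _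
      _ = c.int gH := by
          unfold Crv.int
          refine lintegral_congr fun t => ?_
          simp only [hgH, Finset.mul_sum]
  have hHm : Measurable H := by
    have : Continuous H := by
      refine Continuous.div_const ?_ _
      exact continuous_finsetSum _ fun j _ => kc j
    exact this.measurable
  have hH0 : ∀ y, 0 ≤ H y := fun y =>
    div_nonneg (Finset.sum_nonneg fun j _ => k0 j y) hnR.le
  have hH1 : ∀ y, H y ≤ 1 := by
    intro y
    rw [hH]
    simp only
    rw [div_le_one hnR]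
    calc ∑ j ∈ Finset.range n, k j y ≤ ∑ j ∈ Finset.range n, (1 : ℝ) :=
          Finset.sum_le_sum fun j _ => k1 j y
      _ = n := by simp
  have hPP := hPI.poin H gH (LI_of_bdd hD hHm hH0 hH1) hUG x r hr
  have hLr : 0 < L * r := by positivity
  have hBL1 := (hD.pos x (L * r) hLr).ne'
  have hBL2 := (hD.fin x (L * r)).ne
  set w : ℝ≥0∞ := ENNReal.ofReal (12 * D ^ 2 / (n * r)) with hw
  have hint : ∫⁻ y in ball x (L * r), gH y ^ p ∂μ ≤
      w ^ p * (ENNReal.ofReal (n * T) * μ (ball x r)) := by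
    calc ∫⁻ y in ball x (L * r), gH y ^ p ∂μ
        ≤ ∫⁻ y in ball x (L * r), b ^ p * (2 ^ p * ∑ j ∈ Finset.range n,
            ((2 : ℝ≥0∞) ^ j) ^ p * a j y) ∂μ := by
          refine lintegral_mono fun y => ?_
          rw [hgH]
          simp only
          rw [ENNReal.mul_rpow_of_nonneg _ _ hp0.le]
          gcongr
          rcases geom p hp0.le (fun j => a j y) (fun j => ha01 j y) n with h | h
          · exact h.2
          · exact absurd h hp0.ne'
      _ = b ^ p * (2 ^ p * ∑ j ∈ Finset.range n, ((2 : ℝ≥0∞) ^ j) ^ p *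
            μ (Dj j ∩ ball x (L * r))) := by
          have hm1 : Measurable (fun y => ∑ j ∈ Finset.range n, ((2 : ℝ≥0∞) ^ j) ^ p * a j y) :=
            Finset.measurable_fun_sum _ fun j _ => (ham j).const_mul _
          rw [lintegral_const_mul _ (hm1.const_mul _), lintegral_const_mul _ hm1,
            lintegral_finsetSum _ fun j _ => (ham j).const_mul _]
          congr 2
          refine Finset.sum_congr rfl fun j _ => ?_
          rw [lintegral_const_mul _ (ham j)]
          congr 1
          rw [ha]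
          simp only
          rw [lintegral_indicator_one (hDjm j), Measure.restrict_apply (hDjm j)]
      _ = w ^ p * ∑ j ∈ Finset.range n, ENNReal.ofReal ((2 ^ (j0 + j)) ^ p) *
            μ (Dj j ∩ ball x (L * r)) := by
          have e1 : w = b * 2 * (2 ^ j0)⁻¹ := by
            rw [hw, hb]
            have h2 : ((2 : ℝ≥0∞) ^ j0)⁻¹ = ENNReal.ofReal ((2 ^ j0)⁻¹) := by
              rw [ENNReal.ofReal_inv_of_pos (by positivity), ENNReal.ofReal_pow (by norm_num)]
              norm_num
            have h3 : (2 : ℝ≥0∞) = ENNReal.ofReal 2 := by norm_num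
            rw [h2, h3, ← ENNReal.ofReal_mul (by positivity), ← ENNReal.ofReal_mul (by positivity)]
            congr 1
            field_simp
            norm_num
          have e2 : ∀ j, ENNReal.ofReal ((2 ^ (j0 + j)) ^ p) =
              ((2 : ℝ≥0∞) ^ j0) ^ p * ((2 : ℝ≥0∞) ^ j) ^ p := by
            intro j
            rw [← ENNReal.mul_rpow_of_nonneg _ _ hp0.le, ← pow_add,
              ← ENNReal.ofReal_rpow_of_nonneg (by positivity) hp0.le,
              ENNReal.ofReal_pow (by norm_num)]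
            norm_num
          have e3 : w ^ p * ((2 : ℝ≥0∞) ^ j0) ^ p = b ^ p * 2 ^ p := by
            rw [← ENNReal.mul_rpow_of_nonneg _ _ hp0.le, e1, mul_assoc,
              ENNReal.inv_mul_cancel (by positivity) (by simp), mul_one,
              ENNReal.mul_rpow_of_nonneg _ _ hp0.le]
          simp only [e2]
          have e4 : ∑ j ∈ Finset.range n, ((2 : ℝ≥0∞) ^ j0) ^ p * ((2 : ℝ≥0∞) ^ j) ^ p *
              μ (Dj j ∩ ball x (L * r)) = ((2 : ℝ≥0∞) ^ j0) ^ p *
              ∑ j ∈ Finset.range n, ((2 : ℝ≥0∞) ^ j) ^ p * μ (Dj j ∩ ball x (L * r)) := by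
            rw [Finset.mul_sum]
            refine Finset.sum_congr rfl fun j _ => ?_
            ring
          rw [e4, ← mul_assoc, ← mul_assoc, e3]
      _ ≤ w ^ p * ∑ _j ∈ Finset.range n, ENNReal.ofReal T * μ (ball x r) := by
          refine mul_le_mul' le_rfl (Finset.sum_le_sum fun j hj => ?_)
          exact hsm j (Finset.mem_range.1 hj)
      _ = w ^ p * (ENNReal.ofReal (n * T) * μ (ball x r)) := by
          rw [Finset.sum_const, Finset.card_range, nsmul_eq_mul,
            ENNReal.ofReal_mul (by positivity), ENNReal.ofReal_natCast]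
          ring
  have hlav : lav μ (fun y => gH y ^ p) x (L * r) ≤ w ^ p * ENNReal.ofReal (n * T) := by
    unfold lav
    rw [ENNReal.div_le_iff hBL1 hBL2]
    refine hint.trans ?_
    rw [mul_assoc]
    gcongr
    nlinarith
  calc osc μ H x r ≤ ENNReal.ofReal (C * r) * (lav μ (fun y => gH y ^ p) x (L * r)) ^ (1 / p) := hPP
    _ ≤ ENNReal.ofReal (C * r) * (w ^ p * ENNReal.ofReal (n * T)) ^ (1 / p) := by
        exact mul_le_mul' le_rfl (ENNReal.rpow_le_rpow hlav (by positivity))
    _ = ENNReal.ofReal (C * r) * (w * ENNReal.ofReal ((n * T) ^ (1 / p))) := by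
        congr 1
        rw [ENNReal.mul_rpow_of_nonneg _ _ (by positivity), ← ENNReal.rpow_mul,
          mul_one_div_cancel hp0.ne', ENNReal.rpow_one,
          ENNReal.ofReal_rpow_of_nonneg (by positivity) (by positivity)]
    _ = ENNReal.ofReal (12 * C * D ^ 2 * ((n * T) ^ (1 / p)) / n) := by
        have hC0 := hPI.nonneg
        rw [hw, ← ENNReal.ofReal_mul (by positivity), ← ENNReal.ofReal_mul (by positivity)]
        congr 1
        field_simp

lemma exists_n {p C D T κ : ℝ} (hp : 1 < p) (hκ : 0 < κ) (hT : 0 < T) :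
    ∃ n : ℕ, 0 < n ∧ 12 * C * D ^ 2 * (((n : ℝ) * T) ^ (1 / p)) / n < κ / 4 := by
  have hp0 : 0 < p := by linarith
  have h1 : 1 / p < 1 := by
    rw [div_lt_one hp0]
    exact hp
  have h2 : Tendsto (fun n : ℕ => ((n : ℝ)) ^ (-(1 - 1 / p))) atTop (𝓝 0) :=
    (tendsto_rpow_neg_atTop (by linarith)).comp tendsto_natCast_atTop_atTop
  have h3 : Tendsto (fun n : ℕ => 12 * C * D ^ 2 * T ^ (1 / p) * ((n : ℝ)) ^ (-(1 - 1 / p)))
      atTop (𝓝 (12 * C * D ^ 2 * T ^ (1 / p) * 0)) := h2.const_mul _
  rw [mul_zero] at h3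
  have h4 := (h3.eventually (gt_mem_nhds (show (0 : ℝ) < κ / 4 by positivity))).and
    (eventually_gt_atTop 0)
  obtain ⟨n, hn1, hn2⟩ := h4.exists
  refine ⟨n, hn2, ?_⟩
  have hnR : (0 : ℝ) < n := by exact_mod_cast hn2
  have e : 12 * C * D ^ 2 * (((n : ℝ) * T) ^ (1 / p)) / n =
      12 * C * D ^ 2 * T ^ (1 / p) * ((n : ℝ)) ^ (-(1 - 1 / p)) := by
    rw [Real.mul_rpow hnR.le hT.le, show -(1 - 1 / p) = 1 / p - 1 by ring, Real.rpow_sub hnR,
      Real.rpow_one]
    ring
  rw [e]
  exact hn1

lemma exists_j0 {p A : ℝ} (hp : 1 < p) (m0 : ℕ) : ∃ j0 : ℕ, m0 ≤ j0 ∧ A ≤ ((2 : ℝ) ^ j0) ^ p := by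
  obtain ⟨j, hj⟩ := exists_nat_ge A
  refine ⟨max m0 j, le_max_left _ _, ?_⟩
  have h1 : (j : ℝ) ≤ (2 : ℝ) ^ (max m0 j) := by
    have h2 : j < 2 ^ j := Nat.lt_two_pow_self
    have h3 : (j : ℝ) ≤ (2 : ℝ) ^ j := by exact_mod_cast h2.le
    exact h3.trans (pow_le_pow_right₀ (by norm_num) (le_max_right _ _))
  have h4 : (1 : ℝ) ≤ (2 : ℝ) ^ (max m0 j) := one_le_pow₀ (by norm_num)
  calc A ≤ (2 : ℝ) ^ (max m0 j) := hj.trans h1
    _ = ((2 : ℝ) ^ (max m0 j)) ^ (1 : ℝ) := (Real.rpow_one _).symm
    _ ≤ ((2 : ℝ) ^ (max m0 j)) ^ p := Real.rpow_le_rpow_of_exponent_le h4 hp.le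

/-- some smaller scale has a large ambiguous set -/
lemma lemA (hD : Dbl μ D) {p C L : ℝ} (hPI : PI μ p C L) (h1 : S_KER μ D) (h2 : S_L1 μ D) {κ : ℝ}
    (hκ : 0 < κ) {τ : ℝ} (hτ0 : 0 < τ) (hτ1 : τ ≤ 1 / (3 * D)) (hτ2 : D ^ 4 * τ ≤ κ / 16) {T : ℝ}
    (hT : 0 < T) (m0 : ℕ) :
    ∃ j0 n : ℕ, m0 ≤ j0 ∧ ∀ V : Set X, MeasurableSet V → ∀ (x : X) (r : ℝ), 0 < r →
      Amb μ V κ x r → ∃ j, j0 ≤ j ∧ j < j0 + n ∧
        ENNReal.ofReal T * μ (ball x r) ≤ ENNReal.ofReal ((2 ^ j) ^ p) *
          μ ({z | Amb μ V τ z (2 * (r / 2 ^ j))} ∩ ball x (L * r)) := by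
  have hp1 := hPI.one_lt
  have hL1 := hPI.one_le
  have hD1 := hD.one_le
  obtain ⟨n, hn, hn2⟩ := exists_n (p := p) (C := C) (D := D) (T := T) (κ := κ) hp1 hκ hT
  obtain ⟨j0, hj0, hj0'⟩ := exists_j0 (p := p) (A := 16 * T / κ) hp1 m0
  refine ⟨j0, n, hj0, ?_⟩
  intro V hV x r hr hA
  by_contra hcon
  push Not at hcon
  have hnR : (0 : ℝ) < n := by exact_mod_cast hn
  choose k kc k0 k1 kug ka kb using fun j : ℕ =>
    h1 V hV.nullMeasurableSet (r / 2 ^ (j0 + j)) (by positivity)
  have hBt := (hD.fin x r).ne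
  have hsm : ∀ j < n, ENNReal.ofReal ((2 ^ (j0 + j)) ^ p) *
      μ ({y | k j y ≠ 0 ∧ k j y ≠ 1} ∩ ball x (L * r)) ≤ ENNReal.ofReal T * μ (ball x r) := by
    intro j hj
    refine le_trans ?_ (hcon (j0 + j) (by omega) (by omega)).le
    refine mul_le_mul' le_rfl (measure_mono (inter_subset_inter_left _ ?_))
    intro y hy
    have hle : ENNReal.ofReal τ ≤ ENNReal.ofReal (1 / (3 * D)) := ENNReal.ofReal_le_ofReal hτ1
    refine ⟨hle.trans ?_, hle.trans ?_⟩
    · by_contra hc
      exact hy.1 (ka j y (not_le.1 hc))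
    · by_contra hc
      exact hy.2 (kb j y (not_le.1 hc))
  have hup := oscUpper hD hPI hr hn k kc k0 k1 kug hT hsm
  have hamb : ∀ j < n, μ ({z | Amb μ V τ z (2 * (r / 2 ^ (j0 + j)))} ∩ ball x r) ≤
      ENNReal.ofReal (κ / 16) * μ (ball x r) := by
    intro j hj
    have e1 : ENNReal.ofReal (16 * T / κ) *
        μ ({z | Amb μ V τ z (2 * (r / 2 ^ (j0 + j)))} ∩ ball x r) ≤
        ENNReal.ofReal T * μ (ball x r) := by
      refine le_trans ?_ (hcon (j0 + j) (by omega) (by omega)).le
      refine mul_le_mul' (ENNReal.ofReal_le_ofReal ?_) (measure_mono ?_)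
      · refine hj0'.trans ?_
        refine Real.rpow_le_rpow (by positivity) ?_ (by linarith)
        exact pow_le_pow_right₀ (by norm_num) (by omega)
      · refine inter_subset_inter_right _ (ball_subset_ball ?_)
        nlinarith
    have e2 : ENNReal.ofReal (κ / (16 * T)) * (ENNReal.ofReal (16 * T / κ) *
        μ ({z | Amb μ V τ z (2 * (r / 2 ^ (j0 + j)))} ∩ ball x r)) ≤
        ENNReal.ofReal (κ / (16 * T)) * (ENNReal.ofReal T * μ (ball x r)) := by gcongr
    rw [← mul_assoc, ← mul_assoc, ← ENNReal.ofReal_mul (by positivity),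
      ← ENNReal.ofReal_mul (by positivity)] at e2
    rw [show κ / (16 * T) * (16 * T / κ) = 1 by field_simp,
      show κ / (16 * T) * T = κ / 16 by field_simp, ENNReal.ofReal_one, one_mul] at e2
    exact e2
  have hv : Measurable (V.indicator (fun _ => (1 : ℝ))) := measurable_const.indicator hV
  have hest : ∀ j < n, ∫⁻ y in ball x r,
      ENNReal.ofReal |k j y - V.indicator (fun _ => (1 : ℝ)) y| ∂μ ≤
      ENNReal.ofReal (κ / 4) * μ (ball x r) := by
    intro j hj
    have e1 := l1est hV h2 hτ0.le hτ1 (x := x) (r := r) (ρ := r / 2 ^ (j0 + j)) (by positivity)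
      (div_le_self hr.le (one_le_pow₀ (by norm_num))) (k0 j) (k1 j) (ka j) (kb j)
    refine e1.trans ?_
    calc μ ({z | Amb μ V τ z (2 * (r / 2 ^ (j0 + j)))} ∩ ball x r) +
          ENNReal.ofReal (2 * (D ^ 4 * τ)) * μ (ball x r)
        ≤ ENNReal.ofReal (κ / 16) * μ (ball x r) + ENNReal.ofReal (κ / 8) * μ (ball x r) := by
          gcongr
          · exact hamb j hj
          · linarith
      _ = ENNReal.ofReal (κ / 16 + κ / 8) * μ (ball x r) := by
          rw [ENNReal.ofReal_add (by positivity) (by positivity), add_mul]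
      _ ≤ ENNReal.ofReal (κ / 4) * μ (ball x r) := by
          gcongr
          linarith
  set H : X → ℝ := fun y => (∑ j ∈ Finset.range n, k j y) / n with hH
  have hHm : Measurable H := by
    have : Continuous H := by
      refine Continuous.div_const ?_ _
      exact continuous_finsetSum _ fun j _ => kc j
    exact this.measurable
  have hH1 : ∫⁻ y in ball x r, ENNReal.ofReal |H y - V.indicator (fun _ => (1 : ℝ)) y| ∂μ ≤
      ENNReal.ofReal (κ / 4) * μ (ball x r) := by
    calc ∫⁻ y in ball x r, ENNReal.ofReal |H y - V.indicator (fun _ => (1 : ℝ)) y| ∂μ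
        ≤ ∫⁻ y in ball x r, ∑ j ∈ Finset.range n, ENNReal.ofReal (1 / n) *
            ENNReal.ofReal |k j y - V.indicator (fun _ => (1 : ℝ)) y| ∂μ := by
          refine lintegral_mono fun y => ?_
          have e2 : H y - V.indicator (fun _ => (1 : ℝ)) y =
              ∑ j ∈ Finset.range n, (1 / n) * (k j y - V.indicator (fun _ => (1 : ℝ)) y) := by
            rw [← Finset.mul_sum, Finset.sum_sub_distrib, Finset.sum_const, Finset.card_range,
              nsmul_eq_mul]
            simp only [hH]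
            field_simp
          have e3 : |H y - V.indicator (fun _ => (1 : ℝ)) y| ≤
              ∑ j ∈ Finset.range n, (1 / n) * |k j y - V.indicator (fun _ => (1 : ℝ)) y| := by
            rw [e2]
            refine (Finset.abs_sum_le_sum_abs _ _).trans (le_of_eq ?_)
            refine Finset.sum_congr rfl fun j _ => ?_
            rw [abs_mul, abs_of_pos (by positivity)]
          refine (ENNReal.ofReal_le_ofReal e3).trans (le_of_eq ?_)
          rw [ENNReal.ofReal_sum_of_nonneg (fun j _ => by positivity)]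
          refine Finset.sum_congr rfl fun j _ => ?_
          rw [ENNReal.ofReal_mul (by positivity)]
      _ = ∑ j ∈ Finset.range n, ENNReal.ofReal (1 / n) *
            ∫⁻ y in ball x r, ENNReal.ofReal |k j y - V.indicator (fun _ => (1 : ℝ)) y| ∂μ := by
          have hmm : ∀ j, Measurable (fun y =>
              ENNReal.ofReal |k j y - V.indicator (fun _ => (1 : ℝ)) y|) := by
            intro j
            have := (kc j).measurable
            fun_prop
          rw [lintegral_finsetSum _ fun j _ => (hmm j).const_mul _]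
          refine Finset.sum_congr rfl fun j _ => ?_
          rw [lintegral_const_mul _ (hmm j)]
      _ ≤ ∑ _j ∈ Finset.range n, ENNReal.ofReal (1 / n) *
            (ENNReal.ofReal (κ / 4) * μ (ball x r)) := by
          gcongr with j hj
          exact hest j (Finset.mem_range.1 hj)
      _ = ENNReal.ofReal (κ / 4) * μ (ball x r) := by
          rw [Finset.sum_const, Finset.card_range, nsmul_eq_mul, ← mul_assoc,
            ← ENNReal.ofReal_natCast, ← ENNReal.ofReal_mul (by positivity),
            mul_one_div_cancel hnR.ne', ENNReal.ofReal_one, one_mul]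
  have hlow := oscLower hD hV hκ hr hA hHm hH1
  have hfin := hlow.trans hup
  exact absurd hfin (not_le.2 ((ENNReal.ofReal_lt_ofReal_iff (by positivity)).2 hn2))

end Pool.Agent.W579.FD
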